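import Pool.Agent.K7.H41.OP.Stm

set_option autoImplicit false

/-!
# Project OP, job LAT: lattice data exist
-/

namespace Pool.Agent.K7.H90.OPLAT

open Pool.Agent.K7.H41.OP Module
open scoped IsMulCommutative

lemma core (A : Type) [Group A] (j : Type) [Fintype j] (P : A →* Multiplicative (j → ℤ)) (t : ℕ) (ht : 0 < t)
    (h1 : ∀ a, P a = 1 → a ^ t ∈ commutator A)
    (h2 : ∀ x : A, Pm A t x → (∃ k : ℕ, 0 < k ∧ x ^ k ∈ commutator A) → x ∈ commutator A) : Nonempty (Lat A) := by
  classical
  obtain ⟨I, hI⟩ : ∃ I : Submodule ℤ (j → ℤ), ∀ x, x ∈ I ↔ ∃ w ∈ Subgroup.center A, P w = Multiplicative.ofAdd x :=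
    ⟨AddSubgroup.toIntSubmodule (Subgroup.toAddSubgroup' ((Subgroup.center A).map P)), fun x => Iff.rfl⟩
  obtain ⟨n, snf⟩ := I.smithNormalForm (Pi.basisFun ℤ j)
  choose w hw hPw using fun i => (hI _).1 (snf.bN i).2
  have ha : ∀ i, snf.a i ≠ 0 := by
    intro i h
    have h3 := snf.snf i
    rw [h, zero_smul] at h3
    exact snf.bN.ne_zero i (Subtype.ext h3)
  obtain ⟨c, hcdef⟩ : ∃ c : ℕ, c = ∏ i, (snf.a i).natAbs := ⟨_, rfl⟩
  have hc : 0 < c := by
    rw [hcdef]
    exact Finset.prod_pos fun i _ => Int.natAbs_pos.2 (ha i)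
  have hd : ∀ i, ∃ d : ℤ, d * snf.a i = c := by
    intro i
    have h3 : (snf.a i).natAbs ∣ c := by
      rw [hcdef]
      exact Finset.dvd_prod_of_mem _ (Finset.mem_univ i)
    have h4 : snf.a i ∣ (c : ℤ) := Int.natAbs_dvd.1 (Int.natCast_dvd_natCast.2 h3)
    obtain ⟨d, hd⟩ := h4
    exact ⟨d, by rw [hd]; ring⟩
  choose d hd using hd
  let r : A →* L n :=
    { toFun := fun a => Multiplicative.ofAdd fun i => d i * snf.bM.repr (Multiplicative.toAdd (P a)) (snf.f i)
      map_one' := by
        rw [map_one, toAdd_one, map_zero]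
        apply Multiplicative.toAdd.injective
        funext i
        simp
      map_mul' := by
        intro a b
        rw [map_mul, toAdd_mul, map_add]
        apply Multiplicative.toAdd.injective
        funext i
        simp [mul_add] }
  have hr : ∀ a i, Multiplicative.toAdd (r a) i = d i * snf.bM.repr (Multiplicative.toAdd (P a)) (snf.f i) :=
    fun a i => rfl
  let s' : L n →* Subgroup.center A :=
    { toFun := fun v => ∏ i, (⟨w i, hw i⟩ : Subgroup.center A) ^ (Multiplicative.toAdd v i)
      map_one' := by simp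
      map_mul' := by
        intro v v'
        rw [← Finset.prod_mul_distrib]
        apply Finset.prod_congr rfl
        intro i _
        rw [toAdd_mul, Pi.add_apply, zpow_add] }
  let s : L n →* A := (Subgroup.center A).subtype.comp s'
  have hs : ∀ v, s v ∈ Subgroup.center A := fun v => (s' v).2
  -- the coordinates of the central elements
  have hmem : ∀ z ∈ Subgroup.center A, Multiplicative.toAdd (P z) ∈ I := fun z hz => (hI _).2 ⟨z, hz, rfl⟩
  have hrz : ∀ (z : A) (hz : z ∈ Subgroup.center A) (i : Fin n),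
      Multiplicative.toAdd (r z) i = c * snf.bN.repr ⟨Multiplicative.toAdd (P z), hmem z hz⟩ i := by
    intro z hz i
    rw [hr]
    have h3 := snf.repr_apply_embedding_eq_repr_smul (m := ⟨Multiplicative.toAdd (P z), hmem z hz⟩) (i := i)
    simp only at h3
    rw [h3, map_smul, Finsupp.smul_apply, smul_eq_mul, ← mul_assoc, hd]
  have hPs : ∀ v : L n, Multiplicative.toAdd (P (s v)) = ∑ i, (Multiplicative.toAdd v i) • (snf.bN i : j → ℤ) := by
    intro v
    have h3 : P (s v) = ∏ i, (P (w i)) ^ (Multiplicative.toAdd v i) := by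
      show (P.comp (Subgroup.center A).subtype) (∏ i, (⟨w i, hw i⟩ : Subgroup.center A) ^ (Multiplicative.toAdd v i)) = _
      rw [map_prod]
      apply Finset.prod_congr rfl
      intro i _
      rw [map_zpow]
      rfl
    rw [h3, toAdd_prod]
    apply Finset.sum_congr rfl
    intro i _
    rw [toAdd_zpow, hPw]
    rfl
  refine ⟨{ n := n, c := c, t := t, hc := hc, ht := ht, s := s, r := r, sc := hs, rs := ?_, rc := ?_, tor := ?_, tf := h2 }⟩
  · intro v
    apply Multiplicative.toAdd.injective
    funext i
    rw [hrz (s v) (hs v), toAdd_pow, Pi.smul_apply, nsmul_eq_mul]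
    congr 1
    have h3 : (⟨Multiplicative.toAdd (P (s v)), hmem (s v) (hs v)⟩ : I) = ∑ i, (Multiplicative.toAdd v i) • snf.bN i := by
      apply Subtype.ext
      show Multiplicative.toAdd (P (s v)) = _
      rw [hPs v]
      simp
    rw [h3, snf.bN.repr_sum_self]
  · intro z hz
    refine ⟨Multiplicative.ofAdd fun i => snf.bN.repr ⟨Multiplicative.toAdd (P z), hmem z hz⟩ i, ?_⟩
    apply Multiplicative.toAdd.injective
    funext i
    rw [hrz z hz, toAdd_pow, Pi.smul_apply, nsmul_eq_mul]
    rfl
  · intro z hz h3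
    apply h1
    have h4 : snf.bN.repr ⟨Multiplicative.toAdd (P z), hmem z hz⟩ = 0 := by
      ext i
      have h5 := hrz z hz i
      rw [h3, toAdd_one, Pi.zero_apply] at h5
      rcases mul_eq_zero.1 h5.symm with h6 | h6
      · exfalso
        have : c = 0 := by exact_mod_cast h6
        omega
      · simpa using h6
    have h5 : (⟨Multiplicative.toAdd (P z), hmem z hz⟩ : I) = 0 := by
      simpa using h4
    have h6 : Multiplicative.toAdd (P z) = 0 := congrArg Subtype.val h5
    apply Multiplicative.toAdd.injective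
    rw [h6, toAdd_one]

/-- JOB LAT -/
theorem stLat : StLat := by
  intro A _ hA
  classical
  have := hA
  have : Group.FG (Abelianization A) := QuotientGroup.fg _
  obtain ⟨ι, j, _, _, p, hp, e, ⟨E⟩⟩ := CommGroup.equiv_free_prod_prod_multiplicative_zmod (Abelianization A)
  let P0 : A →* (j → Multiplicative ℤ) := (MonoidHom.fst _ _).comp (E.toMonoidHom.comp Abelianization.of)
  let P : A →* Multiplicative (j → ℤ) :=
    { toFun := fun a => Multiplicative.ofAdd fun i => Multiplicative.toAdd (P0 a i)
      map_one' := by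
        rw [map_one]
        rfl
      map_mul' := by
        intro a b
        rw [map_mul]
        rfl }
  let Q : A →* ((i : ι) → Multiplicative (ZMod (p i ^ e i))) :=
    (MonoidHom.snd _ _).comp (E.toMonoidHom.comp Abelianization.of)
  obtain ⟨t, htdef⟩ : ∃ t : ℕ, t = ∏ i, p i ^ e i := ⟨_, rfl⟩
  have ht : 0 < t := by
    rw [htdef]
    exact Finset.prod_pos fun i _ => pow_pos (hp i).pos _
  have hQ : ∀ a, Q a ^ t = 1 := by
    intro a
    funext i
    rw [Pi.pow_apply, Pi.one_apply]
    obtain ⟨u, hu⟩ : p i ^ e i ∣ t := by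
      rw [htdef]
      exact Finset.dvd_prod_of_mem (fun i => p i ^ e i) (Finset.mem_univ i)
    apply Multiplicative.toAdd.injective
    rw [toAdd_pow, toAdd_one, hu, nsmul_eq_mul]
    push_cast
    have h3 : ((p i : ZMod (p i ^ e i)) ^ e i) = 0 := by
      have h4 := ZMod.natCast_self (p i ^ e i)
      push_cast at h4
      exact h4
    rw [h3]
    ring
  have hP0 : ∀ a, P a = 1 ↔ P0 a = 1 := by
    intro a
    constructor
    · intro h
      funext i
      have h3 := congrArg (fun f : Multiplicative (j → ℤ) => Multiplicative.toAdd f i) h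
      apply Multiplicative.toAdd.injective
      exact h3
    · intro h
      apply Multiplicative.toAdd.injective
      funext i
      have h3 := congrFun h i
      have h4 := congrArg Multiplicative.toAdd h3
      exact h4
  have hcomm : ∀ a, a ∈ commutator A ↔ P a = 1 ∧ Q a = 1 := by
    intro a
    rw [hP0]
    have h3 : a ∈ commutator A ↔ Abelianization.of a = 1 := by
      rw [← MonoidHom.mem_ker, Abelianization.ker_of]
    rw [h3]
    constructor
    · intro h
      constructor
      · show (E (Abelianization.of a)).1 = 1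
        rw [h, map_one]
        rfl
      · show (E (Abelianization.of a)).2 = 1
        rw [h, map_one]
        rfl
    · rintro ⟨h4, h5⟩
      apply E.injective
      rw [map_one]
      exact Prod.ext h4 h5
  have htors : ∀ (a : A) (k : ℕ), 0 < k → P a ^ k = 1 → P a = 1 := by
    intro a k hk h
    apply Multiplicative.toAdd.injective
    have h3 := congrArg Multiplicative.toAdd h
    rw [toAdd_pow, toAdd_one] at h3
    rw [toAdd_one]
    exact (smul_eq_zero.1 h3).resolve_left (by omega)
  refine core A j P t ht ?_ ?_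
  · intro a ha
    rw [hcomm, map_pow, map_pow, ha, hQ]
    exact ⟨one_pow _, rfl⟩
  · rintro x ⟨y, hy⟩ ⟨k, hk, hxk⟩
    rw [hcomm] at hy hxk ⊢
    have h3 : P x = 1 := htors x k hk (by rw [← map_pow]; exact hxk.1)
    refine ⟨h3, ?_⟩
    have h4 := hy.2
    rw [map_mul, map_inv, map_pow, hQ, inv_one, mul_one] at h4
    exact h4

end Pool.Agent.K7.H90.OPLAT
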